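import Mathlib

/-!
# Project BZ: moments of the Barnes double zeta function with Liouville weights, the statements

`ζ(s) = ∑_{m, n ≥ 0} (a + m + n w)^{-s}`, `a, w > 0`; `Z = Y + P` is the continuation to `Re s > 1`.
-/

set_option autoImplicit false

open Complex MeasureTheory Filter

namespace Pool.Agent.L0h2.BZ

/-- the numbers `a + m + n w` -/
noncomputable def lam (a w : ℝ) (p : ℕ × ℕ) : ℝ := a + p.1 + p.2 * w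

/-- `x^{-s}` minus the integral of `y^{-s}` from `x` to `x + 1` -/
noncomputable def D (s : ℂ) (x : ℝ) : ℂ :=
  (x : ℂ) ^ (-s) - (((x + 1 : ℝ) : ℂ) ^ (1 - s) - (x : ℂ) ^ (1 - s)) / (1 - s)

/-- `((x + w)^z - x^z) / z`, also for `z = 0` -/
noncomputable def Q (w x : ℝ) (z : ℂ) : ℂ :=
  dslope (fun z : ℂ => ((x + w : ℝ) : ℂ) ^ z - (x : ℂ) ^ z) 0 z

/-- `x^{1-s}` minus the mean value of `y^{1-s}` from `x` to `x + w` -/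
noncomputable def D1 (w : ℝ) (s : ℂ) (x : ℝ) : ℂ := (x : ℂ) ^ (1 - s) - Q w x (2 - s) / w

/-- the regular part -/
noncomputable def Y (a w : ℝ) (s : ℂ) : ℂ :=
  ∑' p : ℕ × ℕ, D s (lam a w p) + (s - 1)⁻¹ * ∑' n : ℕ, D1 w s (a + n * w)

/-- the polar part -/
noncomputable def P (a w : ℝ) (s : ℂ) : ℂ := (a : ℂ) ^ (2 - s) / (w * ((s - 1) * (s - 2)))

/-- the continuation -/
noncomputable def Z (a w : ℝ) (s : ℂ) : ℂ := Y a w s + P a w s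

/-- the point `x + i t` -/
noncomputable def pt (x t : ℝ) : ℂ := (x : ℂ) + t * I

/-- the weight, `exp (- t² / T²)` on the line `Re s = σ` -/
noncomputable def K (σ T : ℝ) (s : ℂ) : ℂ := cexp ((s - σ) ^ 2 / (T : ℂ) ^ 2)

/-- the test polynomial: the sum of `(a + j)^s`, `N < j ≤ 2 N` -/
noncomputable def E (a : ℝ) (N : ℕ) (s : ℂ) : ℂ :=
  ∑ j ∈ Finset.Ioc N (2 * N), ((a + j : ℝ) : ℂ) ^ s

/-- BND: the bounds. (`D s x = ∫_x^{x+1} (x^{-s} - y^{-s}) dy`, mean value inequality; the same for `D1`,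
`s = 2` by continuity or directly.) -/
def S_BND : Prop :=
  (∀ (s : ℂ) (x : ℝ), 1 < s.re → 0 < x → ‖D s x‖ ≤ ‖s‖ * x ^ (-s.re - 1)) ∧
  (∀ (w : ℝ) (s : ℂ) (x : ℝ), 0 < w → 1 < s.re → 0 < x → ‖D1 w s x‖ ≤ ‖s - 1‖ * w * x ^ (-s.re))

/-- SUM: summability (`a + m + n w ≥ c (1 + m + n) ≥ c √(1+m) √(1+n)`). -/
def S_SUM : Prop := ∀ a w τ : ℝ, 0 < a → 0 < w →
  (2 < τ → Summable fun p : ℕ × ℕ => (lam a w p) ^ (-τ)) ∧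
  (1 < τ → Summable fun n : ℕ => (a + n * w) ^ (-τ))

/-- ANA: `Y` is holomorphic for `Re s > 1`, of linear growth in the strips. From BND and SUM. -/
def S_ANA : Prop := ∀ a w : ℝ, 0 < a → 0 < w →
  DifferentiableOn ℂ (Y a w) {s | 1 < s.re} ∧
  ∀ σ c : ℝ, 1 < σ → σ ≤ c → ∃ C : ℝ, 0 ≤ C ∧ ∀ s : ℂ, σ ≤ s.re → s.re ≤ c → ‖Y a w s‖ ≤ C * (1 + |s.im|)

/-- IDN: the series. From BND and SUM. -/
def S_IDN : Prop := ∀ a w : ℝ, 0 < a → 0 < w → ∀ s : ℂ, 2 < s.re →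
  HasSum (fun p : ℕ × ℕ => ((lam a w p : ℝ) : ℂ) ^ (-s)) (Z a w s)

/-- SYM: the reflection. -/
def S_SYM : Prop := ∀ a w σ t : ℝ, 0 < a → 0 < w → 1 < σ → σ < 2 →
  ‖Z a w (pt σ (-t))‖ = ‖Z a w (pt σ t)‖

/-- SHF: the shift of the line of integration. -/
def S_SHF : Prop := ∀ (F : ℂ → ℂ) (σ c T C : ℝ), 1 < σ → σ ≤ c → 0 < T → 0 ≤ C →
  DifferentiableOn ℂ F {s | 1 < s.re} →
  (∀ s : ℂ, σ ≤ s.re → s.re ≤ c → ‖F s‖ ≤ C * (1 + |s.im|) * Real.exp (-(s.im / T) ^ 2)) →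
  ∫ t : ℝ, F (pt σ t) = ∫ t : ℝ, F (pt c t)

/-- GAU: the Gaussian integral. -/
def S_GAU : Prop := ∀ T h u : ℝ, 0 < T →
  ∫ t : ℝ, cexp (u * pt h t) * cexp ((pt h t) ^ 2 / (T : ℂ) ^ 2) =
    ((√Real.pi * T * Real.exp (-(T * u) ^ 2 / 4) : ℝ) : ℂ)

/-- JC3: the integral on the line `Re s = 3`. From IDN, GAU, SUM: for each `j` and `p = (m, n)` the
integral of `λ^{-s} μ^s K(s)` on the line is `√π T (μ / λ)^σ exp (- T² log² (μ / λ) / 4) > 0` (`s = σ + z`,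
`u = log (μ / λ)`, GAU with `h = 3 - σ`). -/
def S_JC3 : Prop := ∀ a w σ T : ℝ, 0 < a → 0 < w → 1 < σ → σ < 3 / 2 → 1 ≤ T →
  ∀ (N : ℕ) (F : ℕ → Finset (ℕ × ℕ)),
    √Real.pi * T * ∑ j ∈ Finset.Ioc N (2 * N), ∑ p ∈ F j, ((a + j) / lam a w p) ^ σ *
        Real.exp (-(T * Real.log ((a + j) / lam a w p)) ^ 2 / 4) ≤
      ‖∫ t : ℝ, Z a w (pt 3 t) * E a N (pt 3 t) * K σ T (pt 3 t)‖

/-- PER: the polar part. -/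
def S_PER : Prop := ∀ a w σ : ℝ, 0 < a → 0 < w → 1 < σ → σ < 3 / 2 → ∃ K₀ : ℝ, 0 ≤ K₀ ∧
  ∀ (T : ℝ) (N : ℕ), 1 ≤ T → 1 ≤ N → a ≤ N →
    ‖∫ t : ℝ, P a w (pt 3 t) * E a N (pt 3 t) * K σ T (pt 3 t)‖ ≤ K₀ * N ^ 4 ∧
    ‖∫ t : ℝ, P a w (pt σ t) * E a N (pt σ t) * K σ T (pt σ t)‖ ≤ K₀ * N ^ 4 ∧
    Integrable (fun t : ℝ => P a w (pt 3 t) * E a N (pt 3 t) * K σ T (pt 3 t)) ∧
    Integrable (fun t : ℝ => P a w (pt σ t) * E a N (pt σ t) * K σ T (pt σ t))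

/-- EMS: the mean square of the test polynomial. From GAU (`h = 0`): the integral is
`√π T ∑_{j, j'} ((a+j)(a+j'))^σ exp (- T² log² ((a+j)/(a+j')) / 4)`, and for `j ≠ j'`
`|log| ≥ 1 / (a + 2N) ≥ 1 / (3 N)`, `T = N^4`, `N exp (- N^6 / 36) ≤ 1`. -/
def S_EMS : Prop := ∀ a σ : ℝ, 0 < a → 1 < σ → σ < 3 / 2 → ∀ N : ℕ, 1 ≤ N → a ≤ N →
  Integrable (fun t : ℝ => ‖E a N (pt σ t)‖ ^ 2 * Real.exp (-(t / (N : ℝ) ^ 4) ^ 2)) ∧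
  ∫ t : ℝ, ‖E a N (pt σ t)‖ ^ 2 * Real.exp (-(t / (N : ℝ) ^ 4) ^ 2) ≤
    2 * √Real.pi * (N : ℝ) ^ 4 * N * (3 * N) ^ (2 * σ)

/-- ABL: from the sharp to the smooth mean value. (Pointwise `exp (-(t/T)²) ≤ ∑_k exp (-k²) 1_{|t| ≤ (k+1) T}`.) -/
def S_ABL : Prop := ∀ (g : ℝ → ℝ) (C ε : ℝ), Continuous g → (∀ t, 0 ≤ g t) → (∀ t, g (-t) = g t) →
  0 ≤ C → 0 ≤ ε → ε ≤ 1 → (∀ T : ℝ, 1 ≤ T → ∫ t in (1 : ℝ)..T, g t ≤ C * T ^ (1 + ε)) →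
  ∃ C₁ : ℝ, 0 ≤ C₁ ∧ ∀ T : ℝ, 1 ≤ T → Integrable (fun t : ℝ => g t * Real.exp (-(t / T) ^ 2)) ∧
    ∫ t : ℝ, g t * Real.exp (-(t / T) ^ 2) ≤ C₁ * T ^ (1 + ε)

/-- CNT: the near coincidences. For `N < j ≤ 2N` take the pairs `(j - p n', q n')`, `0 ≤ n' ≤ j / p`:
`λ = a + j + n' (q w - p)`, `|λ - (a + j)| ≤ j / (2 T)`, so `(μ/λ)^σ ≥ 1/2`, `T |log (μ/λ)| ≤ 1`; each pair
gives at least `3/8`, and there are at least `j / p` pairs. -/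
def S_CNT : Prop := ∀ a w σ T δ : ℝ, 0 < a → 0 < w → 1 < σ → σ < 3 / 2 → 1 ≤ T →
  ∀ p q N : ℕ, 0 < p → 0 < q → 1 ≤ N → |w - p / q| ≤ δ → 2 * q * δ * T ≤ p →
  ∃ F : ℕ → Finset (ℕ × ℕ), 3 / 8 * (N : ℝ) ^ 2 / p ≤
    ∑ j ∈ Finset.Ioc N (2 * N), ∑ x ∈ F j, ((a + j) / lam a w x) ^ σ *
      Real.exp (-(T * Real.log ((a + j) / lam a w x)) ^ 2 / 4)

end Pool.Agent.L0h2.BZ
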